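import Pool.Agent.L0h31.HS.G3

/-!
# The Hilbert-Smith conjecture for homeomorphisms which are somewhere Hölder or fractional Sobolev

Let `n ≥ 2`, let `X` be a Hausdorff space (for example an Alexandrov space of dimension `n`) and
let `Ψ i` be countably many topological charts of `X`, homeomorphisms from open sets of `X` onto
open sets of `ℝⁿ`. Nothing is assumed about the changes of coordinates or about the rest of `X`.
Let `G` be a locally compact group acting continuously on `X` and `V` a neighbourhood of `1`.
Consider the elements `g` whose powers have compact closure contained in `V`. Suppose that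

* no such `g` other than `1` fixes all points of a nonempty open subset of a chart, and
* every such `g` has a positive power `h = g^M` which is somewhere slightly regular: there are two
  of the charts and a nonempty open set `W` on which `h`, read in these charts, satisfies one of
  the following conditions:
  - the set of the points of `W` at which it is Hölder with some exponent bigger than
    `(n - 1) / (n + 1)` is not meagre (for example, it contains all points of a nonempty open set
    up to a meagre set); the exponent and the constant may depend on the point in an arbitrary way;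
  - it is of the fractional Sobolev (Slobodeckij) class `W^{s,q}` on `W`, for some `q ≥ 1` and `s`
    with `s * min q (n + 1) > n - 1`;
  - it is of Sobolev class `W^{1,q}` on `W`, for some `q > n - 1`;
  - its energies on `W`, the sums of the powers `n + 1` of the oscillations on `r`-separated balls
    of radius `r`, are bounded at the scales of one of countably many given sequences by given
    numbers, which are `o(1/r)`.

The power, the charts, `W`, the exponents and the constants depend on `g` in an arbitrary way.
Then `G` is a Lie group.

The starting library has this for `W^{1,q}`, `q > n - 1`, and for the powers `n` of the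
oscillations, at one sequence of scales and with `M = 1`.

Proof (files in `Pool/Agent/L0h31/HS/`; the new part is in `G1`-`G3`). Let the `p`-adic integers
act, locally effectively. The classes of data (power, two charts, balls from a countable base,
sequence, stage) cover the group by countably many closed sets, so by Baire's theorem one of them
contains a coset of an open subgroup. The `M`-th powers of the elements of this coset are a coset
`s K` of an open subgroup, whose elements have uniformly bounded energies from a ball of one chart
to another chart `χ`. The inverse of `s` need not be regular. In the topological chart `χ ∘ s` the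
average `F` of a small subgroup is close to the identity, and its energies with the power `n + 1`
are small in the coordinates of the first chart. By the slicing argument of `B1`-`B6`, for almost
all `y` the part of the fibre of `F` over `y` which lies on countably many hyperplanes of these
coordinates has a totally disconnected image in the orbit space. This gives a map of the fibre to
the unit circle on which the group acts through a nontrivial finite quotient by rotations, and the
circle criterion of the starting library shows that an open subgroup acts trivially near a point.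
-/

set_option autoImplicit false

namespace Pool.Agent.Results.MP_afaf30_gt.SomewhereHolder

open MeasureTheory Set Metric Filter Topology
open scoped ENNReal

/-- The set of the points `v` of `O` at which the map `f` is Hölder with an exponent bigger than
`(n - 1) / (n + 1)`, that is, `|f(w) - f(v)| ≤ C |w - v|^α` for all `w` near `v`, where `α` and `C`
may depend on `v`, is not meagre. -/
def HolderPoints {n : ℕ} (O : Set (EuclideanSpace ℝ (Fin n)))
    (f : EuclideanSpace ℝ (Fin n) → EuclideanSpace ℝ (Fin n)) : Prop :=
  ¬ IsMeagre {v | v ∈ O ∧ ∃ α C : ℝ, ((n : ℝ) - 1) / (n + 1) < α ∧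
    ∀ᶠ w in 𝓝 v, dist (f w) (f v) ≤ C * dist w v ^ α}

/-- The map `f` is of the fractional Sobolev (Slobodeckij) class `W^{s,q}` on `O`, for some
`q ≥ 1` and `s` with `s * min q (n + 1) > n - 1`: the double integral over `O` of
`|f(v) - f(w)|^q / |v - w|^(n + s q)` is finite. -/
def FractionalSobolev {n : ℕ} (O : Set (EuclideanSpace ℝ (Fin n)))
    (f : EuclideanSpace ℝ (Fin n) → EuclideanSpace ℝ (Fin n)) : Prop :=
  ∃ q s : ℝ, 1 ≤ q ∧ (n : ℝ) - 1 < s * min q (n + 1) ∧
    ∫⁻ v in O, ∫⁻ w in O, edist (f v) (f w) ^ q / edist v w ^ ((n : ℝ) + s * q) < ∞

/-- The map `f` is of Sobolev class `W^{1,q}` on `O`, in the form of Hajlasz. -/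
def Sobolev {n : ℕ} (q : ℝ) (O : Set (EuclideanSpace ℝ (Fin n)))
    (f : EuclideanSpace ℝ (Fin n) → EuclideanSpace ℝ (Fin n)) : Prop :=
  ∃ h : EuclideanSpace ℝ (Fin n) → ℝ≥0∞, Measurable h ∧
    (∀ v ∈ O, ∀ w ∈ O, edist (f v) (f w) ≤ edist v w * (h v + h w)) ∧
    ∫⁻ v in O, h v ^ q < ∞

/-- The energy of `f` on `O` at the scale `r`, with the power `n + 1`, is at most `b`: the sum of
`|f(x_a) - f(y_a)|^(n + 1)` over an `r`-separated set of points `a` of `O` is at most `b`, for all
points `x_a`, `y_a` of `O` at distance at most `r` from `a`. -/
def Energy {n : ℕ} (O : Set (EuclideanSpace ℝ (Fin n))) (r b : ℝ)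
    (f : EuclideanSpace ℝ (Fin n) → EuclideanSpace ℝ (Fin n)) : Prop :=
  ∀ (A : Finset (EuclideanSpace ℝ (Fin n)))
    (x y : EuclideanSpace ℝ (Fin n) → EuclideanSpace ℝ (Fin n)),
    (∀ a ∈ A, a ∈ O ∧ x a ∈ O ∧ y a ∈ O ∧ dist (x a) a ≤ r ∧ dist (y a) a ≤ r) →
    (∀ a ∈ A, ∀ a' ∈ A, a ≠ a' → r ≤ dist a a') →
    ∑ a ∈ A, dist (f (x a)) (f (y a)) ^ (n + 1) ≤ b

/-- The powers of `g` have compact closure contained in `V`. -/
def SmallPowers {G : Type} [Group G] [TopologicalSpace G] (V : Set G) (g : G) : Prop :=
  IsCompact (closure (Subgroup.zpowers g : Set G)) ∧ closure (Subgroup.zpowers g : Set G) ⊆ V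

/-- The Hilbert-Smith conjecture for locally effective actions by homeomorphisms which have powers
that are Hölder with exponents bigger than `(n - 1) / (n + 1)` at the points of a set which is not
meagre, or somewhere of a fractional Sobolev class, or of class `W^{1,q}` with `q > n - 1`, or of
small energies. -/
theorem result :
    ∀ (n : ℕ), 2 ≤ n → ∀ (X : Type) [TopologicalSpace X] [T2Space X]
      (Ψ : ℕ → OpenPartialHomeomorph X (EuclideanSpace ℝ (Fin n)))
      (G : Type) [Group G] [TopologicalSpace G] [IsTopologicalGroup G] [LocallyCompactSpace G]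
      [T2Space G] [MulAction G X] [ContinuousSMul G X], ∀ V ∈ 𝓝 (1 : G),
      (∀ g : G, SmallPowers V g → ∀ (i : ℕ) (W : Set X), IsOpen W → W.Nonempty →
        W ⊆ (Ψ i).source → (∀ x ∈ W, g • x = x) → g = 1) →
      ∀ r b : ℕ → ℕ → ℝ, (∀ k j, 0 < r k j) →
      (∀ k, Tendsto (fun j => r k j * b k j) atTop (𝓝 0)) →
      (∀ g : G, SmallPowers V g → ∃ (M i i' : ℕ) (W : Set X), 0 < M ∧ IsOpen W ∧ W.Nonempty ∧
        W ⊆ (Ψ i).source ∧ (∀ x ∈ W, g ^ M • x ∈ (Ψ i').source) ∧
        (HolderPoints (Ψ i '' W) (fun v => Ψ i' (g ^ M • (Ψ i).symm v)) ∨
          FractionalSobolev (Ψ i '' W) (fun v => Ψ i' (g ^ M • (Ψ i).symm v)) ∨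
          (∃ q : ℝ, (n : ℝ) - 1 < q ∧
            Sobolev q (Ψ i '' W) (fun v => Ψ i' (g ^ M • (Ψ i).symm v))) ∨
          ∃ k m : ℕ, ∀ j, m ≤ j →
            Energy (Ψ i '' W) (r k j) (b k j) (fun v => Ψ i' (g ^ M • (Ψ i).symm v)))) →
      ∃ (m : ℕ) (_ : ChartedSpace (EuclideanSpace ℝ (Fin m)) G),
        LieGroup (modelWithCornersSelf ℝ (EuclideanSpace ℝ (Fin m)))
          ((⊤ : ℕ∞) : WithTop ℕ∞) G := by
  intro n hn X _ _ Ψ G _ _ _ _ _ _ _ V hV hLE r b hr hrb hreg
  exact Pool.Agent.L0h31.HS.SW.lie_sw hn Ψ hV hLE hr hrb hreg

end Pool.Agent.Results.MP_afaf30_gt.SomewhereHolder
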