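import Pool.Agent.L0h93.HT.T5

/-!
# The Hilbert-Smith conjecture for actions which preserve a tower of fibrations

Let `X 0 → X 1 → ... → X r` be open maps between metric spaces, and let a locally compact group `G`
act on all of them, compatibly with the maps, and faithfully on `X 0`; let all sufficiently small
subgroups act trivially on `X r` (for example, let `X r` be a point). Suppose that over a dense
set `D i` of points of `X (i + 1)` the points of the fibre with a chart in `ℝ^(m i)` form a dense
connected set of the fibre, and that over each point of a dense connected set of `X (i + 1)` there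
is a product chart near some point. The other fibres are arbitrary. The charts have to be
bi-Lipschitz along the fibres over `D i` if `m i ≥ 2`; if `m i = 1` they are topological charts.

If `m i ≥ 2`, suppose in addition that every small element of `G` which acts trivially on `X (i + 1)`
has on each fibre over `D i` a nonzero power which satisfies, at each regular point of the fibre of
infinite orbit outside a countable union of closed totally disconnected sets, one of the conditions:
Hölder at the point with exponent above `(m i - 1) / (m i + 1)`; of class `W^{s,q}` near the point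
with `s * min q (m i + 1) > m i - 1`; of class `W^{1,q}` near the point with `q > m i - 1`; small
images of balls near the point. Here all the distances are taken within one fibre. If `m i = 1`
nothing is assumed. Then `G` is a Lie group.

So regularity is needed only along a dense (for example countable) set of fibres, with the exponents
of the dimension of the fibre instead of the dimension of the space, and only for the elements which
act trivially on the next space of the tower; for towers with one-dimensional fibres (iterated
bundles with fibres the line or the circle, possibly with singular fibres) nothing is assumed on the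
regularity.

Proof (files `Pool/Agent/L0h93/HT/`). Let a profinite group `K` act trivially on `X (i + 1)`. A closed
subgroup of `K` which moves the points of one chart of a fibre over `D i` very little acts trivially
on the fibre: for `m i ≥ 2` this is the local theorem of `Pool/Agent/L0h31/HS/` together with
Newman's theorem, for `m i = 1` it follows from the order of the line. The set `C` of the points of
`X (i + 1)` over which a given subgroup acts trivially is closed, because the map is open. If the
subgroup acts trivially over `b`, then it has small displacements in a product chart over a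
neighbourhood of `b` (compactness), so `C` contains the points of `D i` near `b`, hence a
neighbourhood of `b`. The same compactness argument gives an open subgroup to start with.
Induction over the tower and the theorem of Gleason and Yamabe finish the proof.
-/

set_option autoImplicit false

namespace Pool.Agent.Results.MP_afaf30_gt.TowersOfFibrations

open MeasureTheory Set Metric Filter Topology
open scoped ENNReal NNReal

/-- The points of `Y` in the domain of a chart with values in Euclidean `m`-space, which is
bi-Lipschitz unless `m = 1`. -/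
def Reg (m : ℕ) (Y : Type) [MetricSpace Y] : Set Y :=
  {x | ∃ φ : OpenPartialHomeomorph Y (EuclideanSpace ℝ (Fin m)),
    (m = 1 ∨ ∃ L : ℝ, ∀ a ∈ φ.source, ∀ b ∈ φ.source,
      dist (φ a) (φ b) ≤ L * dist a b ∧ dist a b ≤ L * dist (φ a) (φ b)) ∧ x ∈ φ.source}

/-- The point `x` is in the domain of a product chart: a homeomorphism `Φ` of an open set of `X` onto
an open set of `B × ℝ^m` whose first component is `π`; unless `m = 1`, the second component is
bi-Lipschitz on the part of the domain in each fibre over `D`. -/
def ProductChartAt (m : ℕ) {X B : Type} [MetricSpace X] [TopologicalSpace B] (π : X → B)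
    (D : Set B) (x : X) : Prop :=
  ∃ Φ : OpenPartialHomeomorph X (B × EuclideanSpace ℝ (Fin m)), x ∈ Φ.source ∧
    (∀ y ∈ Φ.source, (Φ y).1 = π y) ∧
    (m = 1 ∨ ∀ b ∈ D, ∃ L : ℝ, ∀ y ∈ Φ.source, π y = b → ∀ z ∈ Φ.source, π z = b →
      dist (Φ y).2 (Φ z).2 ≤ L * dist y z ∧ dist y z ≤ L * dist (Φ y).2 (Φ z).2)

/-- An open map such that over the points of the dense set `D` the points with a chart are dense and
connected in the fibre, and over each point of a dense connected set there is a product chart near
some point. -/
structure Fibration (m : ℕ) {X B : Type} [MetricSpace X] [TopologicalSpace B] (π : X → B)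
    (D : Set B) : Prop where
  pos : 1 ≤ m
  isOpenMap : IsOpenMap π
  dense : Dense D
  fibres : ∀ b ∈ D, Dense (Reg m {x : X // π x = b}) ∧ IsPreconnected (Reg m {x : X // π x = b})
  charts : ∃ R : Set B, Dense R ∧ IsPreconnected R ∧
    ∀ b ∈ R, ∃ x, π x = b ∧ ProductChartAt m π D x

/-- The orbit of `x` under `f` is infinite in the sense that `x` is not periodic. -/
def InfiniteOrbit {Y : Type} (f : Y → Y) (x : Y) : Prop := ∀ k : ℕ, 0 < k → f^[k] x ≠ x

/-- The map `f` is Hölder at the point `x` with some exponent `α > (m - 1) / (m + 1)`, tested against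
the points of infinite orbit. -/
def HolderAt (m : ℕ) {Y : Type} [MetricSpace Y] (f : Y → Y) (x : Y) : Prop :=
  ∃ α C δ : ℝ, ((m : ℝ) - 1) / (m + 1) < α ∧ 0 < δ ∧
    ∀ y, InfiniteOrbit f y → dist y x < δ → dist (f y) (f x) ≤ C * dist y x ^ α

/-- Near `x` the map `f` is of the Slobodeckij class `W^{s,q}` for some `q ≥ 1` and `s` with
`s * min q (m + 1) > m - 1`: the double integral of `d(fa, fb)^q / d(a, b)^(m + s q)` over a
neighbourhood, for the `m`-dimensional Hausdorff measure, is finite. -/
def FractionalSobolevNear (m : ℕ) {Y : Type} [MetricSpace Y] [MeasurableSpace Y] [BorelSpace Y]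
    (f : Y → Y) (x : Y) : Prop :=
  ∃ W ∈ 𝓝 x, ∃ s q : ℝ, 1 ≤ q ∧ (m : ℝ) - 1 < s * min q (m + 1) ∧
    ∫⁻ a in W, ∫⁻ b in W, edist (f a) (f b) ^ q / edist a b ^ ((m : ℝ) + s * q)
      ∂(Measure.hausdorffMeasure (m : ℝ)) ∂(Measure.hausdorffMeasure (m : ℝ)) < ∞

/-- Near `x` the map `f` is of class `W^{1,q}` for some `q > m - 1`, in the form of Hajlasz: in a
neighbourhood `d(fa, fb) ≤ d(a, b) (h(a) + h(b))`, and `h^q` has finite integral for the
`m`-dimensional Hausdorff measure. -/
def SobolevNear (m : ℕ) {Y : Type} [MetricSpace Y] [MeasurableSpace Y] [BorelSpace Y]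
    (f : Y → Y) (x : Y) : Prop :=
  ∃ W ∈ 𝓝 x, ∃ q : ℝ, (m : ℝ) - 1 < q ∧ ∃ h : Y → ℝ≥0∞, Measurable h ∧
    (∀ a ∈ W, ∀ b ∈ W, edist (f a) (f b) ≤ edist a b * (h a + h b)) ∧
    ∫⁻ a in W, h a ^ q ∂(Measure.hausdorffMeasure (m : ℝ)) < ∞

/-- For a compact neighbourhood `W` of `x` the sum of `diam (f (B(a, c r) ∩ W))^(m + 1)` over
`r`-separated points `a` of `W` is at most `N r^{-1 + 1/N}`, for some `N` depending on `c`. -/
def SmallImagesNear (m : ℕ) {Y : Type} [MetricSpace Y] (f : Y → Y) (x : Y) : Prop :=
  ∃ W ∈ 𝓝 x, IsCompact W ∧ ∀ c : ℕ, ∃ N : ℕ, ∀ r : ℝ, 0 < r → r ≤ 1 → ∀ A : Finset Y,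
    (∀ a ∈ A, a ∈ W) → (∀ a ∈ A, ∀ b ∈ A, a ≠ b → r ≤ dist a b) →
    ∑ a ∈ A, Metric.diam (f '' (closedBall a (c * r) ∩ W)) ^ (m + 1) ≤
      N * r ^ (1 / (N : ℝ) - 1)

/-- There are countably many closed totally disconnected sets such that one of the four regularity
conditions holds at each regular point of infinite orbit outside these sets. -/
def Regular (m : ℕ) {Y : Type} [MetricSpace Y] [MeasurableSpace Y] [BorelSpace Y] (f : Y → Y) :
    Prop :=
  ∃ T : ℕ → Set Y, (∀ i, IsClosed (T i)) ∧ (∀ i, IsTotallyDisconnected (T i)) ∧
    ∀ x ∈ Reg m Y, InfiniteOrbit f x → (∀ i, x ∉ T i) →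
      HolderAt m f x ∨ FractionalSobolevNear m f x ∨ SobolevNear m f x ∨ SmallImagesNear m f x

/-- The powers of `g` have compact closure contained in `V`. -/
def SmallPowers {G : Type} [Group G] [TopologicalSpace G] (V : Set G) (g : G) : Prop :=
  IsCompact (closure (Subgroup.zpowers g : Set G)) ∧ closure (Subgroup.zpowers g : Set G) ⊆ V

/-- The Hilbert-Smith conjecture for actions which preserve a tower of fibrations
`X 0 → X 1 → ... → X r`, such that the small subgroups act trivially on `X r`: in the steps with
fibres of dimension `m i ≥ 2` the small elements which act trivially on `X (i + 1)` are regular on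
the fibres over a dense set of points; in the steps with one-dimensional fibres no regularity is
assumed. -/
theorem result :
    ∀ (r : ℕ) (X : ℕ → Type) [∀ i, MetricSpace (X i)] [∀ i, MeasurableSpace (X i)]
      [∀ i, BorelSpace (X i)] (m : ℕ → ℕ) (π : ∀ i, X i → X (i + 1)) (D : ∀ i, Set (X (i + 1))),
      (∀ i < r, Fibration (m i) (π i) (D i)) →
      ∀ (G : Type) [Group G] [TopologicalSpace G] [IsTopologicalGroup G] [LocallyCompactSpace G]
        [∀ i, MulAction G (X i)] [∀ i, ContinuousSMul G (X i)] [FaithfulSMul G (X 0)],
        (∀ i < r, ∀ (g : G) (x : X i), π i (g • x) = g • π i x) →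
        ∀ V ∈ 𝓝 (1 : G),
        (∀ H : Subgroup G, (H : Set G) ⊆ V → ∀ h ∈ H, ∀ x : X r, h • x = x) →
        (∀ i < r, m i ≠ 1 → ∀ g : G, SmallPowers V g → (∀ b : X (i + 1), g • b = b) →
          ∀ b ∈ D i, ∃ M : ℤ, M ≠ 0 ∧ ∃ f : {x : X i // π i x = b} → {x : X i // π i x = b},
            (∀ x, (f x : X i) = g ^ M • (x : X i)) ∧ Regular (m i) f) →
        ∃ (d : ℕ) (_ : ChartedSpace (EuclideanSpace ℝ (Fin d)) G),
          LieGroup (modelWithCornersSelf ℝ (EuclideanSpace ℝ (Fin d)))
            ((⊤ : ℕ∞) : WithTop ℕ∞) G := by
  intro r X _ _ _ m π D hF G _ _ _ _ _ _ _ hπ V hV htop hreg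
  refine Pool.Agent.L0h93.HT.lie_tower r X m π D (fun i hi => ?_) hπ hV htop ?_
  · exact ⟨(hF i hi).pos, (hF i hi).isOpenMap, (hF i hi).dense, (hF i hi).fibres,
      (hF i hi).charts⟩
  · intro i hi hm g hg hgb b hb
    obtain ⟨M, hM, f, hf, T, hT1, hT2, hT3⟩ := hreg i hi hm g hg hgb b hb
    refine ⟨M, hM, f, hf, T, hT1, hT2, fun x hx hxI hxT => ?_⟩
    obtain ⟨φ, hφ, hxφ⟩ := hx
    exact hT3 x ⟨φ, Or.inr hφ, hxφ⟩ hxI hxT

end Pool.Agent.Results.MP_afaf30_gt.TowersOfFibrations
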